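import Mathlib
import Pool.Agent.Q292.Dih.Real
import Pool.Agent.Q292.Dih.Imp

/-!
# Base size sets and determining sets of dihedral groups

For every `n ≥ 2` the base size set of `D_n` is `{1, …, ω(n) + 1}`, and the determining set equals
it exactly when `n` is an odd prime, twice an odd prime, or every odd prime dividing `n` divides it
at least twice.
-/

set_option autoImplicit false

namespace Pool.Agent.Results.MP_4c7f2d_al.DihedralSets

/-! ### Definitions used in the statement -/

/-- The base size set of `D_n`: the base sizes (minimum cardinalities of a base) of the faithful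
actions of the dihedral group of order `2n` on finite sets. -/
def baseSizeSet (n : ℕ) : Set ℕ :=
  {b | ∃ (S : Type) (_ : Fintype S) (_ : MulAction (DihedralGroup n) S),
    (∀ g : DihedralGroup n, (∀ x : S, g • x = x) → g = 1) ∧
    IsLeast {c | ∃ B : Finset S, B.card = c ∧
      ∀ g : DihedralGroup n, (∀ x ∈ B, g • x = x) → g = 1} b}

/-- The determining set of `D_n`: the base sizes of the actions on vertices of the automorphism
groups, isomorphic to the dihedral group of order `2n`, of finite simple graphs. -/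
def determiningSet (n : ℕ) : Set ℕ :=
  {b | ∃ (V : Type) (_ : Fintype V) (Γ : SimpleGraph V),
    Nonempty ((Γ ≃g Γ) ≃* DihedralGroup n) ∧
    IsLeast {c | ∃ B : Finset V, B.card = c ∧
      ∀ φ : Γ ≃g Γ, (∀ x ∈ B, φ x = x) → φ = 1} b}

/-! ### Proof -/

open Q292.Dih DihedralGroup

theorem one_le {n b : ℕ} (h : b ∈ baseSizeSet n) : 1 ≤ b := by
  obtain ⟨S, _, _, -, ⟨B, hB1, hB2⟩, -⟩ := h
  by_contra hb
  have h0 : B = ∅ := Finset.card_eq_zero.1 (by omega)
  have := hB2 (sr 0) (by rw [h0]; simp)
  rw [one_def] at this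
  cases this

theorem le_bound {n b : ℕ} (hn : n ≠ 0) (h : b ∈ baseSizeSet n) : b ≤ n.primeFactors.card + 1 := by
  obtain ⟨S, _, _, hf, -, hmin⟩ := h
  obtain ⟨B, hB1, hB2⟩ := upper hn hf
  exact (hmin ⟨B, rfl, hB2⟩).trans hB1

theorem mem_base {n b : ℕ} (hn : n ≠ 0) (h1 : 1 ≤ b) (h2 : b ≤ n.primeFactors.card + 1) :
    b ∈ baseSizeSet n := by
  have : NeZero n := ⟨hn⟩
  obtain ⟨C, hC, hCc⟩ := Finset.exists_subset_card_eq (s := n.primeFactors) (n := b - 1) (by omega)
  have hb : b = C.card + 1 := by omega
  rw [hb]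
  exact ⟨SV n Unit C (fun _ => false), inferInstance, inferInstance,
    model_faithful hn hC _, model_least hn hC _⟩

theorem det_sub {n b : ℕ} (h : b ∈ determiningSet n) : b ∈ baseSizeSet n := by
  obtain ⟨V, hV, Γ, ⟨e⟩, hb⟩ := h
  let act : MulAction (DihedralGroup n) V :=
    { smul := fun g v => e.symm g v
      one_smul := fun v => by
        change e.symm 1 v = v
        rw [map_one]; rfl
      mul_smul := fun g h v => by
        change e.symm (g * h) v = e.symm g (e.symm h v)
        rw [map_mul]; rfl }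
  have hs : ∀ (g : DihedralGroup n) (v : V), g • v = e.symm g v := fun _ _ => rfl
  refine ⟨V, hV, act, ?_, ?_⟩
  · intro g hg
    have : e.symm g = 1 := by
      ext v
      rw [← hs, hg v]; rfl
    rw [← map_one e.symm] at this
    exact e.symm.injective this
  · have heq : {c | ∃ B : Finset V, B.card = c ∧
        ∀ g : DihedralGroup n, (∀ x ∈ B, g • x = x) → g = 1} = {c | ∃ B : Finset V, B.card = c ∧
        ∀ φ : Γ ≃g Γ, (∀ x ∈ B, φ x = x) → φ = 1} := by
      ext c
      constructor
      · rintro ⟨B, hB1, hB2⟩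
        refine ⟨B, hB1, fun φ hφ => ?_⟩
        have h1 := hB2 (e φ) (fun x hx => by rw [hs, e.symm_apply_apply]; exact hφ x hx)
        exact e.injective (by rw [h1, map_one])
      · rintro ⟨B, hB1, hB2⟩
        refine ⟨B, hB1, fun g hg => ?_⟩
        have h1 := hB2 (e.symm g) (fun x hx => by rw [← hs]; exact hg x hx)
        exact e.symm.injective (by rw [h1, map_one])
    rw [heq]
    exact hb

theorem mem_det {n : ℕ} (hn : n ≠ 0) {C : Finset ℕ} (hC : C ⊆ n.primeFactors) (E : ℕ → Bool)
    (hE : ∀ p ∈ C, E p = true → p ^ 2 ∣ n) (hE' : ∀ p ∈ C, E p = false → 2 * NN n p = 0) :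
    C.card + 1 ∈ determiningSet n := by
  have : NeZero n := ⟨hn⟩
  have : Nonempty (SV n Unit C E) := ⟨.pr () 0 true (dvd_zero _)⟩
  exact realize (G := DihedralGroup n) (V := SV n Unit C E) (model_faithful hn hC E)
    (two_closed hn hC E hE hE') _ (model_least hn hC E)

theorem mem_det' {n p : ℕ} (hn : n ≠ 0) (hp : p ∈ n.primeFactors) (hp2 : p ≠ 2)
    (hq : ∀ q ∈ n.primeFactors, q ≠ p → q = 2 ∧ 2 * NN n q = 0) :
    n.primeFactors.card + 1 ∈ determiningSet n := by
  have : NeZero n := ⟨hn⟩
  have : Nonempty (SV n Empty n.primeFactors (fun _ => false)) :=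
    ⟨.pl ⟨(⟨p, hp⟩, false), by simp⟩ 0 (dvd_zero _)⟩
  apply realize (G := DihedralGroup n) (V := SV n Empty n.primeFactors (fun _ => false))
    (faithful' hn hp hp2) (two_closed' hn (le_refl _) hp hp2 hq)
  obtain ⟨B, hB1, hB2⟩ := upper hn (faithful' (n := n) hn hp hp2)
  constructor
  · exact ⟨B, le_antisymm hB1 (lower hn (le_refl _) _ B hB2), hB2⟩
  · rintro c ⟨B', hB1', hB2'⟩
    rw [← hB1']
    exact lower hn (le_refl _) _ B' hB2'

theorem bad {n p : ℕ} (hn : n ≠ 0) (hp : p.Prime) (hpn : p ∣ n) (hp2 : p ≠ 2)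
    (hsq : ¬ p ^ 2 ∣ n) (hn1 : n ≠ p) (hn2 : n ≠ 2 * p) :
    n.primeFactors.card + 1 ∉ determiningSet n := by
  rintro ⟨V, hV, Γ, ⟨e⟩, hb⟩
  let act : MulAction (DihedralGroup n) V :=
    { smul := fun g v => e.symm g v
      one_smul := fun v => by
        change e.symm 1 v = v
        rw [map_one]; rfl
      mul_smul := fun g h v => by
        change e.symm (g * h) v = e.symm g (e.symm h v)
        rw [map_mul]; rfl }
  have hs : ∀ (g : DihedralGroup n) (v : V), g • v = e.symm g v := fun _ _ => rfl
  apply imp hn hp hpn hp2 hsq hn1 hn2 (V := V) (Γ := Γ)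
  · intro g hg
    have : e.symm g = 1 := by
      ext v
      rw [← hs, hg v]; rfl
    rw [← map_one e.symm] at this
    exact e.symm.injective this
  · intro g u v
    rw [hs, hs]
    exact (e.symm g).map_adj_iff
  · intro φ
    exact ⟨e φ, fun v => by rw [hs, e.symm_apply_apply]⟩
  · intro B hB
    apply hb.2
    refine ⟨B, rfl, fun φ hφ => ?_⟩
    have h1 := hB (e φ) (fun x hx => by rw [hs, e.symm_apply_apply]; exact hφ x hx)
    exact e.injective (by rw [h1, map_one])

/-- For every `n ≥ 2` the base size set of `D_n` is `{1, …, ω(n) + 1}`, and the determining set of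
`D_n` equals the base size set if and only if every odd prime dividing `n` divides it at least
twice, or `n` is an odd prime, or `n` is twice an odd prime. -/
theorem result (n : ℕ) (hn : 2 ≤ n) :
    baseSizeSet n = {b | 1 ≤ b ∧ b ≤ n.primeFactors.card + 1} ∧
    (determiningSet n = baseSizeSet n ↔
      (∀ p : ℕ, p.Prime → p ≠ 2 → p ∣ n → p ^ 2 ∣ n) ∨
      (∃ p : ℕ, p.Prime ∧ p ≠ 2 ∧ (n = p ∨ n = 2 * p))) := by
  have hn0 : n ≠ 0 := by omega
  refine ⟨?_, ?_, ?_⟩
  · ext b
    exact ⟨fun h => ⟨one_le h, le_bound hn0 h⟩, fun h => mem_base hn0 h.1 h.2⟩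
  · intro heq
    by_contra hcon
    push Not at hcon
    obtain ⟨⟨p, hp, hp2, hpn, hsq⟩, h2⟩ := hcon
    obtain ⟨h3, h4⟩ := h2 p hp hp2
    apply bad hn0 hp hpn hp2 hsq h3 h4
    rw [heq]
    exact mem_base hn0 (by omega) le_rfl
  · intro hgood
    apply Set.Subset.antisymm (fun b hb => det_sub hb)
    intro b hb
    have h1 := one_le hb
    have h2 := le_bound hn0 hb
    rcases hgood with hgood | ⟨p, hp, hp2, hnp⟩
    · obtain ⟨C, hC, hCc⟩ := Finset.exists_subset_card_eq (s := n.primeFactors) (n := b - 1) (by omega)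
      have hb' : b = C.card + 1 := by omega
      rw [hb']
      apply mem_det hn0 hC (fun p => decide (p ^ 2 ∣ n))
      · intro p _ h
        simpa using h
      · intro p hp h
        have h' : ¬ p ^ 2 ∣ n := by simpa using h
        have hpp : p.Prime := Nat.prime_of_mem_primeFactors (hC hp)
        have hpn : p ∣ n := Nat.dvd_of_mem_primeFactors (hC hp)
        have hp2 : p = 2 := by
          by_contra hne
          exact h' (hgood p hpp hne hpn)
        subst hp2
        exact n9 hn0 hpn h'
    · have hpn : p ∣ n := by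
        rcases hnp with h | h
        · rw [h]
        · rw [h]; exact Dvd.intro_left _ rfl
      have hpm : p ∈ n.primeFactors := Nat.mem_primeFactors.2 ⟨hp, hpn, hn0⟩
      have hq : ∀ q ∈ n.primeFactors, q ≠ p → q = 2 ∧ 2 * NN n q = 0 := by
        intro q hq hqp
        have hqq : q.Prime := Nat.prime_of_mem_primeFactors hq
        have hqn : q ∣ n := Nat.dvd_of_mem_primeFactors hq
        rcases hnp with h | h
        · exfalso
          rw [h] at hqn
          exact hqp ((Nat.prime_dvd_prime_iff_eq hqq hp).1 hqn)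
        · have hq2 : q = 2 := by
            have hqn' := hqn
            rw [h] at hqn'
            rcases (Nat.Prime.dvd_mul hqq).1 hqn' with h5 | h5
            · exact (Nat.prime_dvd_prime_iff_eq hqq Nat.prime_two).1 h5
            · exact absurd ((Nat.prime_dvd_prime_iff_eq hqq hp).1 h5) hqp
          subst hq2
          refine ⟨rfl, n9 hn0 hqn ?_⟩
          rw [h, sq]
          intro h6
          have h7 := Nat.dvd_of_mul_dvd_mul_left (by norm_num) h6
          exact hp2 ((Nat.prime_dvd_prime_iff_eq Nat.prime_two hp).1 h7).symm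
      by_cases hbe : b = n.primeFactors.card + 1
      · rw [hbe]
        exact mem_det' hn0 hpm hp2 hq
      · have hlt : b - 1 ≤ (n.primeFactors.erase p).card := by
          rw [Finset.card_erase_of_mem hpm]; omega
        obtain ⟨C, hC, hCc⟩ := Finset.exists_subset_card_eq hlt
        have hb' : b = C.card + 1 := by omega
        rw [hb']
        have hC' : C ⊆ n.primeFactors := hC.trans (Finset.erase_subset _ _)
        apply mem_det hn0 hC' (fun _ => false)
        · intro q _ h
          simp at h
        · intro q hqC _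
          exact (hq q (hC' hqC) (Finset.ne_of_mem_erase (hC hqC))).2

end Pool.Agent.Results.MP_4c7f2d_al.DihedralSets
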